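import Pool.Agent.H968R2.FL.NoLift

/-!
# Regular `(n-1)`-forms do not lift to log resolutions of globally `F`-regular pairs

Negative answer to the question, in every characteristic `p > 0` and every dimension `n ≥ 2`, with
`Δ = 0`. The variety `X` is the product of the cone over the rational normal curve of degree `p`
with an affine space of dimension `n - 2`.
-/

noncomputable section

namespace Pool.Agent.Results.MP_0afa72_ag.ConeFormsDoNotLift

open Pool.Agent.H968R2.FL Pool.Agent.H968R2.FL.Variety

universe u

/-- For every prime `p`, every algebraically closed field `k` of characteristic `p` and every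
`n ≥ 2` there is a normal variety `X` over `k` of dimension `n` such that `(X, 0)` is globally
`F`-regular and has a log resolution, but for no proper birational morphism `Y → X`, in particular
for no log resolution of `(X, 0)`, do the regular `(n-1)`-forms on `X` lift to `Y`. -/
theorem result (p : ℕ) [Fact p.Prime] (k : Type u) [Field k] [CharP k p] [IsAlgClosed k]
    (n : ℕ) (hn : 2 ≤ n) :
    ∃ (K : Type u) (_ : Field K) (_ : Algebra k K) (X : Variety k K),
      Algebra.trdeg k K = n ∧ X.IsNormal ∧ X.GloballyFRegular p 0 ∧
        (∃ Y : Variety k K, IsLogResolution Y X 0) ∧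
          ∀ Y : Variety k K, IsMorphism Y X → IsProper Y X → ¬ FormsLift (n - 1) Y X := by
  obtain ⟨m, rfl⟩ : ∃ m, n = m + 2 := ⟨n - 2, by omega⟩
  have hp : 1 ≤ p := (Fact.out : p.Prime).one_le
  let C : Coord k (FractionRing (MvPolynomial (Fin (m + 2)) k)) (m + 2) := stdCoord k _ (m + 2)
  have hR : IsIntegrallyClosed (C.R p) := C.integrallyClosed_R p hp
  refine ⟨FractionRing (MvPolynomial (Fin (m + 2)) k), inferInstance, inferInstance,
    C.cone p hp, C.trdeg_eq, affine_isNormal, C.globallyFRegular p hp,
    ⟨C.reso p, C.isLogResolution p hp⟩, ?_⟩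
  intro Y hm hY
  exact C.not_formsLift p hp Y hm hY

end Pool.Agent.Results.MP_0afa72_ag.ConeFormsDoNotLift
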